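import Mathlib

set_option autoImplicit false

namespace Pool.Agent.Results.MP_1b3da4_an.NormalMBasis

open Filter Topology TopologicalSpace

/-- A normal M-basis `z` of `E` with associated functionals `h`. -/
structure IsNormalMBasis (𝕜 : Type) [RCLike 𝕜] {E : Type} [NormedAddCommGroup E]
    [NormedSpace 𝕜 E] (z : ℕ → E) (h : ℕ → StrongDual 𝕜 E) : Prop where
  biorth : ∀ i j, h i (z j) = if i = j then 1 else 0
  dense : (Submodule.span 𝕜 (Set.range z)).topologicalClosure = ⊤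
  total : ∀ x : E, (∀ n, h n x = 0) → x = 0
  norm_z : ∀ n, ‖z n‖ = 1
  norm_h : ∀ n, ‖h n‖ = 1

section generic

variable {𝕜 : Type} [RCLike 𝕜] {E : Type} [NormedAddCommGroup E] [NormedSpace 𝕜 E]

lemma tendsto_of_mem {h : ℕ → StrongDual 𝕜 E} {f : StrongDual 𝕜 E}
    (hf : f ∈ (Submodule.span 𝕜 (Set.range h)).topologicalClosure)
    {u : ℕ → E} {C : ℝ} (hu : ∀ m, ‖u m‖ ≤ C)
    (hz : ∀ n, Tendsto (fun m => h n (u m)) atTop (𝓝 0)) :
    Tendsto (fun m => f (u m)) atTop (𝓝 0) := by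
  have hspan : ∀ g ∈ Submodule.span 𝕜 (Set.range h),
      Tendsto (fun m => g (u m)) atTop (𝓝 0) := by
    intro g hg
    induction hg using Submodule.span_induction with
    | mem x hx =>
      obtain ⟨n, rfl⟩ := hx
      exact hz n
    | zero => simp
    | add x y _ _ hx hy => simpa using hx.add hy
    | smul a x _ hx => simpa using hx.const_mul a
  have hC : 0 ≤ C := le_trans (norm_nonneg _) (hu 0)
  rw [Metric.tendsto_atTop]
  intro ε hε
  have hf' : f ∈ closure ((Submodule.span 𝕜 (Set.range h) : Submodule 𝕜 (StrongDual 𝕜 E)) :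
      Set (StrongDual 𝕜 E)) := hf
  rw [Metric.mem_closure_iff] at hf'
  obtain ⟨g, hg, hfg⟩ := hf' (ε / 2 / (C + 1)) (by positivity)
  obtain ⟨N, hN⟩ := (Metric.tendsto_atTop.1 (hspan g hg)) (ε / 2) (by positivity)
  refine ⟨N, fun m hm => ?_⟩
  have h1 := hN m hm
  rw [dist_zero_right] at h1 ⊢
  rw [dist_eq_norm] at hfg
  have h2 : ‖(f - g) (u m)‖ ≤ ‖f - g‖ * ‖u m‖ := (f - g).le_opNorm _
  have h3 : ‖f - g‖ * ‖u m‖ ≤ (ε / 2 / (C + 1)) * (C + 1) := by
    apply mul_le_mul hfg.le _ (norm_nonneg _) (by positivity)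
    linarith [hu m]
  have h4 : (ε / 2 / (C + 1)) * (C + 1) = ε / 2 := by
    field_simp
  have h5 : f (u m) = (f - g) (u m) + g (u m) := by simp
  calc ‖f (u m)‖ = ‖(f - g) (u m) + g (u m)‖ := by rw [← h5]
    _ ≤ ‖(f - g) (u m)‖ + ‖g (u m)‖ := norm_add_le _ _
    _ < ε := by linarith

end generic

section cspace

variable {𝕜 : Type} [RCLike 𝕜]

/-- The indicator of `[K, ∞]`. -/
noncomputable def tail (𝕜 : Type) [RCLike 𝕜] (K : ℕ) : C(ℕ∞, 𝕜) where
  toFun := fun x => if (K : ℕ∞) ≤ x then 1 else 0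
  continuous_toFun := by
    rw [continuous_iff_continuousAt]
    intro x
    by_cases hx : x = ⊤
    · subst hx
      apply ContinuousAt.congr (f := fun _ => (1 : 𝕜)) continuousAt_const
      filter_upwards [lt_mem_nhds (a := (K : ℕ∞)) (ENat.natCast_lt_top K)] with y hy
      rw [if_pos hy.le]
    · unfold ContinuousAt
      rw [ENat.nhds_eq_pure hx]
      exact tendsto_pure_nhds _ _

lemma tail_apply (K : ℕ) (x : ℕ∞) : tail 𝕜 K x = if (K : ℕ∞) ≤ x then 1 else 0 := rfl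

lemma norm_tail_le (K : ℕ) : ‖tail 𝕜 K‖ ≤ 1 := by
  rw [ContinuousMap.norm_le _ zero_le_one]
  intro x
  rw [tail_apply]
  split_ifs <;> simp

lemma eventually_zero {z : C(ℕ∞, 𝕜)} {h : StrongDual 𝕜 C(ℕ∞, 𝕜)} (hz : ‖z‖ ≤ 1)
    (hh : ‖h‖ ≤ 1) (hhz : h z = 1) (hlt : ‖z ⊤‖ < 1) :
    ∀ᶠ K : ℕ in atTop, h (tail 𝕜 K) = 0 := by
  set ε : ℝ := (1 - ‖z ⊤‖) / 2 with hε
  have hεpos : 0 < ε := by rw [hε]; linarith
  have hnear : ∀ᶠ x : ℕ∞ in 𝓝 ⊤, ‖z x‖ < 1 - ε := by
    have hc : ContinuousAt (fun x => ‖z x‖) (⊤ : ℕ∞) := z.continuous.norm.continuousAt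
    apply hc.eventually_lt_const
    show ‖z ⊤‖ < 1 - ε
    rw [hε]; linarith
  obtain ⟨a, ha, hsub⟩ := (nhds_top_basis.eventually_iff).1 hnear
  have hev : ∀ᶠ K : ℕ in atTop, a < (K : ℕ∞) :=
    ENat.tendsto_natCast_nhds_top.eventually (lt_mem_nhds ha)
  filter_upwards [hev] with K hK
  by_contra hne
  set w : 𝕜 := h (tail 𝕜 K) with hw
  set c : 𝕜 := (ε : 𝕜) * ((starRingEnd 𝕜) w / (‖w‖ : 𝕜)) with hc
  have hwpos : 0 < ‖w‖ := norm_pos_iff.2 hne
  have hcn : ‖c‖ = ε := by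
    rw [hc, norm_mul, norm_div, RCLike.norm_conj, RCLike.norm_ofReal, RCLike.norm_ofReal,
      abs_of_pos hεpos, abs_of_pos hwpos, div_self hwpos.ne', mul_one]
  have hcw : c * w = ((ε * ‖w‖ : ℝ) : 𝕜) := by
    have h1 : (starRingEnd 𝕜) w * w = ((‖w‖ ^ 2 : ℝ) : 𝕜) := by
      rw [RCLike.conj_mul]; push_cast; rfl
    have h2 : (‖w‖ : 𝕜) ≠ 0 := by
      exact_mod_cast hwpos.ne'
    rw [hc, mul_assoc, div_mul_eq_mul_div, h1]
    push_cast
    field_simp
  have hnorm : ‖z + c • tail 𝕜 K‖ ≤ 1 := by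
    rw [ContinuousMap.norm_le _ zero_le_one]
    intro x
    rw [ContinuousMap.add_apply, ContinuousMap.smul_apply, tail_apply]
    split_ifs with hx
    · have h1 := hsub (show x ∈ Set.Ioi a from lt_of_lt_of_le hK hx)
      calc ‖z x + c • (1 : 𝕜)‖ ≤ ‖z x‖ + ‖c • (1 : 𝕜)‖ := norm_add_le _ _
        _ = ‖z x‖ + ε := by simp [hcn]
        _ ≤ 1 := by linarith
    · simp only [smul_zero, add_zero]
      exact le_trans (z.norm_coe_le_norm x) hz
  have happ : h (z + c • tail 𝕜 K) = ((1 + ε * ‖w‖ : ℝ) : 𝕜) := by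
    rw [map_add, map_smul, hhz, smul_eq_mul, ← hw, hcw]
    push_cast
    ring
  have hle : ‖h (z + c • tail 𝕜 K)‖ ≤ 1 := by
    calc ‖h (z + c • tail 𝕜 K)‖ ≤ ‖h‖ * ‖z + c • tail 𝕜 K‖ := h.le_opNorm _
      _ ≤ 1 * 1 := mul_le_mul hh hnorm (norm_nonneg _) zero_le_one
      _ = 1 := one_mul 1
  rw [happ, RCLike.norm_ofReal] at hle
  have hpos : 0 < ε * ‖w‖ := mul_pos hεpos hwpos
  rw [abs_of_pos (by linarith)] at hle
  linarith

/-- Evaluation functionals on `C(ℕ∞, 𝕜)`. -/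
noncomputable def ev (𝕜 : Type) [RCLike 𝕜] (x : ℕ∞) : StrongDual 𝕜 C(ℕ∞, 𝕜) :=
  ContinuousMap.evalCLM 𝕜 x

lemma ev_apply (x : ℕ∞) (f : C(ℕ∞, 𝕜)) : ev 𝕜 x f = f x := rfl

theorem no_normal {z : ℕ → C(ℕ∞, 𝕜)} {h : ℕ → StrongDual 𝕜 C(ℕ∞, 𝕜)}
    (hb : ∀ i j, h i (z j) = if i = j then 1 else 0)
    (hz : ∀ n, ‖z n‖ ≤ 1) (hh : ∀ n, ‖h n‖ ≤ 1)
    (hV : ∀ x, ev 𝕜 x ∈ (Submodule.span 𝕜 (Set.range h)).topologicalClosure) : False := by
  classical
  -- step 1
  have h1 : Tendsto (fun m => z m ⊤) atTop (𝓝 0) := by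
    have := tendsto_of_mem (hV ⊤) (u := z) (C := 1) hz (fun n => by
      apply tendsto_const_nhds.congr'
      filter_upwards [eventually_gt_atTop n] with m hm
      rw [hb, if_neg (by omega)])
    simpa [ev_apply] using this
  obtain ⟨M, hM⟩ := (Metric.tendsto_atTop.1 h1) 1 one_pos
  -- functionals beyond `M` vanish at tails eventually
  have h2 : ∀ n, M ≤ n → ∀ᶠ K : ℕ in atTop, h n (tail 𝕜 K) = 0 := by
    intro n hn
    apply eventually_zero (hz n) (hh n) (by rw [hb, if_pos rfl])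
    have := hM n hn
    rwa [dist_zero_right] at this
  let v : ℕ → C(ℕ∞, 𝕜) := fun K => ∑ j ∈ Finset.range M, h j (tail 𝕜 K) • z j
  have hcoef : ∀ j K, ‖h j (tail 𝕜 K)‖ ≤ 1 := by
    intro j K
    calc ‖h j (tail 𝕜 K)‖ ≤ ‖h j‖ * ‖tail 𝕜 K‖ := (h j).le_opNorm _
      _ ≤ 1 * 1 := mul_le_mul (hh j) (norm_tail_le K) (norm_nonneg _) zero_le_one
      _ = 1 := one_mul 1
  have hvnorm : ∀ K, ‖v K‖ ≤ M := by
    intro K
    calc ‖v K‖ ≤ ∑ j ∈ Finset.range M, ‖h j (tail 𝕜 K) • z j‖ := norm_sum_le _ _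
      _ ≤ ∑ j ∈ Finset.range M, (1 : ℝ) := by
          apply Finset.sum_le_sum
          intro j _
          rw [norm_smul]
          calc ‖h j (tail 𝕜 K)‖ * ‖z j‖ ≤ 1 * 1 :=
                mul_le_mul (hcoef j K) (hz j) (norm_nonneg _) zero_le_one
            _ = 1 := one_mul 1
      _ = M := by simp
  have hu : ∀ x : ℕ∞, Tendsto (fun K => (tail 𝕜 K - v K) x) atTop (𝓝 0) := by
    intro x
    have := tendsto_of_mem (hV x) (u := fun K => tail 𝕜 K - v K) (C := 1 + M)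
      (fun K => le_trans (norm_sub_le _ _) (add_le_add (norm_tail_le K) (hvnorm K)))
      (fun n => by
        have hval : ∀ K, h n (tail 𝕜 K - v K)
            = if n < M then 0 else h n (tail 𝕜 K) := by
          intro K
          rw [map_sub, map_sum]
          simp only [map_smul, smul_eq_mul, hb, mul_ite, mul_one, mul_zero]
          rw [Finset.sum_ite_eq]
          by_cases hn : n < M
          · simp [hn]
          · simp [hn]
        apply tendsto_const_nhds.congr'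
        by_cases hn : n < M
        · filter_upwards with K
          rw [hval, if_pos hn]
        · filter_upwards [h2 n (not_lt.1 hn)] with K hK
          rw [hval, if_neg hn, hK])
    simpa [ev_apply] using this
  -- values at infinity
  have hvtop : Tendsto (fun K => v K ⊤) atTop (𝓝 1) := by
    have := hu ⊤
    have h3 : Tendsto (fun K => (1 : 𝕜) - (tail 𝕜 K - v K) ⊤) atTop (𝓝 (1 - 0)) :=
      tendsto_const_nhds.sub this
    rw [sub_zero] at h3
    apply h3.congr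
    intro K
    rw [ContinuousMap.sub_apply, tail_apply, if_pos le_top]
    ring
  have hvk : ∀ k : ℕ, Tendsto (fun K => v K (k : ℕ∞)) atTop (𝓝 0) := by
    intro k
    have h3 := (hu (k : ℕ∞)).neg
    rw [neg_zero] at h3
    apply h3.congr'
    filter_upwards [eventually_gt_atTop k] with K hK
    rw [ContinuousMap.sub_apply, tail_apply, if_neg (by
      rw [not_le]; exact_mod_cast hK)]
    ring
  -- choose `k0`
  have hk0 : ∃ k : ℕ, ∑ j ∈ Finset.range M, ‖z j (k : ℕ∞) - z j ⊤‖ < 1 / 2 := by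
    have : Tendsto (fun k : ℕ => ∑ j ∈ Finset.range M, ‖z j (k : ℕ∞) - z j ⊤‖) atTop
        (𝓝 (∑ j ∈ Finset.range M, ‖z j ⊤ - z j ⊤‖)) := by
      apply tendsto_finsetSum
      intro j _
      apply Tendsto.norm
      apply Tendsto.sub_const
      exact ((z j).continuous.tendsto ⊤).comp ENat.tendsto_natCast_nhds_top
    simp only [sub_self, norm_zero, Finset.sum_const_zero] at this
    exact (this.eventually_lt_const (by norm_num : (0 : ℝ) < 1 / 2)).exists
  obtain ⟨k, hk⟩ := hk0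
  have hdiff : ∀ K, ‖v K (k : ℕ∞) - v K ⊤‖ ≤ 1 / 2 := by
    intro K
    have h3 : v K (k : ℕ∞) - v K ⊤
        = ∑ j ∈ Finset.range M, h j (tail 𝕜 K) * (z j (k : ℕ∞) - z j ⊤) := by
      simp only [v, ContinuousMap.sum_apply, ContinuousMap.smul_apply, smul_eq_mul, mul_sub,
        Finset.sum_sub_distrib]
    rw [h3]
    calc ‖∑ j ∈ Finset.range M, h j (tail 𝕜 K) * (z j (k : ℕ∞) - z j ⊤)‖
        ≤ ∑ j ∈ Finset.range M, ‖h j (tail 𝕜 K) * (z j (k : ℕ∞) - z j ⊤)‖ := norm_sum_le _ _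
      _ ≤ ∑ j ∈ Finset.range M, ‖z j (k : ℕ∞) - z j ⊤‖ := by
          apply Finset.sum_le_sum
          intro j _
          rw [norm_mul]
          calc _ ≤ 1 * ‖z j (k : ℕ∞) - z j ⊤‖ :=
                mul_le_mul_of_nonneg_right (hcoef j K) (norm_nonneg _)
            _ = _ := one_mul _
      _ ≤ 1 / 2 := hk.le
  have hlim : Tendsto (fun K => ‖v K (k : ℕ∞) - v K ⊤‖) atTop (𝓝 ‖(0 : 𝕜) - 1‖) :=
    ((hvk k).sub hvtop).norm
  have hfin := le_of_tendsto' hlim hdiff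
  norm_num at hfin

lemma not_finiteDimensional : ¬ FiniteDimensional 𝕜 C(ℕ∞, 𝕜) := by
  intro hfin
  have hli : LinearIndependent 𝕜 (fun i : ℕ => tail 𝕜 i - tail 𝕜 (i + 1)) := by
    rw [linearIndependent_iff']
    intro s g hg i hi
    have h1 := congrArg (fun f : C(ℕ∞, 𝕜) => f (i : ℕ∞)) hg
    simp only [ContinuousMap.sum_apply, ContinuousMap.smul_apply, ContinuousMap.sub_apply,
      tail_apply, smul_eq_mul, ContinuousMap.zero_apply] at h1
    rw [Finset.sum_eq_single i] at h1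
    · have h2 : ((i : ℕ∞) ≤ (i : ℕ∞)) := le_rfl
      have h3 : ¬ (((i + 1 : ℕ) : ℕ∞) ≤ (i : ℕ∞)) := by
        rw [Nat.cast_le]; omega
      rw [if_pos h2, if_neg h3] at h1
      simpa using h1
    · intro j _ hj
      by_cases hlt : j < i
      · have h2 : ((j : ℕ∞) ≤ (i : ℕ∞)) := by rw [Nat.cast_le]; omega
        have h3 : (((j + 1 : ℕ) : ℕ∞) ≤ (i : ℕ∞)) := by rw [Nat.cast_le]; omega
        rw [if_pos h2, if_pos h3]; simp
      · have h2 : ¬ ((j : ℕ∞) ≤ (i : ℕ∞)) := by rw [Nat.cast_le]; omega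
        have h3 : ¬ (((j + 1 : ℕ) : ℕ∞) ≤ (i : ℕ∞)) := by rw [Nat.cast_le]; omega
        rw [if_neg h2, if_neg h3]; simp
    · intro h; exact absurd hi h
  exact not_finite_iff_infinite.2 inferInstance hli.finite

end cspace

theorem result (𝕜 : Type) [RCLike 𝕜] :
    ∃ (E : Type) (_ : NormedAddCommGroup E) (_ : NormedSpace 𝕜 E) (_ : CompleteSpace E)
      (_ : SeparableSpace E) (V : Submodule 𝕜 (StrongDual 𝕜 E)),
      ¬ FiniteDimensional 𝕜 E ∧
      IsClosed (V : Set (StrongDual 𝕜 E)) ∧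
      IsSeparable (V : Set (StrongDual 𝕜 E)) ∧
      (∀ x : E, x ≠ 0 → ∃ f ∈ V, f x ≠ 0) ∧
      ¬ ∃ (z : ℕ → E) (h : ℕ → StrongDual 𝕜 E),
        IsNormalMBasis 𝕜 z h ∧
        (V : Set (StrongDual 𝕜 E)) ⊆
          closure (Submodule.span 𝕜 (Set.range h) : Set (StrongDual 𝕜 E)) := by
  refine ⟨C(ℕ∞, 𝕜), inferInstance, inferInstance, inferInstance, inferInstance,
    (Submodule.span 𝕜 (Set.range (ev 𝕜))).topologicalClosure, not_finiteDimensional,
    Submodule.isClosed_topologicalClosure _, ?_, ?_, ?_⟩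
  · rw [Submodule.topologicalClosure_coe]
    apply IsSeparable.closure
    apply IsSeparable.span
    exact (Set.countable_range _).isSeparable
  · intro x hx
    by_contra hcon
    push Not at hcon
    apply hx
    ext t
    exact hcon (ev 𝕜 t) (Submodule.le_topologicalClosure _ (Submodule.subset_span ⟨t, rfl⟩))
  · rintro ⟨z, h, hN, hV⟩
    exact no_normal hN.biorth (fun n => (hN.norm_z n).le) (fun n => (hN.norm_h n).le)
      (fun x => hV (Submodule.le_topologicalClosure _ (Submodule.subset_span ⟨x, rfl⟩)))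

end Pool.Agent.Results.MP_1b3da4_an.NormalMBasis
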